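import Pool.Agent.Helper84K9.PC.Main

/-!
# Coboundary expanders of bounded degree with permutation coefficients

There are infinitely many pairwise non-isomorphic connected finite polygonal complexes with vertex
degrees at most `64` whose Cheeger constants `h_0` and `h_1` with permutation coefficients are bounded
below by a positive constant.

The underlying graph is a simple expander `G` with even degrees. The polygons are the fundamental
cycles of a spanning tree `T`, one for each oriented edge outside `T`, and one copy of an Eulerian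
circuit of `G` for each vertex. A `1`-cochain `α` agrees on `T` with a coboundary `δβ`, and its
distance from `δβ` on an edge outside `T` is the distance of `δα` from the identity on the
corresponding fundamental cycle. The number of all polygons is comparable with the number of the
fundamental cycles, while the Eulerian circuits make all the edges almost equally likely.
-/

set_option autoImplicit false

namespace Pool.Agent.Results.MP_d4a15d_co.BoundedDegree

open Helper84K9.PC

theorem result : ∃ (k : ℕ) (lam : ℝ) (X : ℕ → PolyComplex), 0 < lam ∧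
    (∀ m, (X m).Connected ∧ (∀ v, (X m).degree v ≤ k) ∧
      ENNReal.ofReal lam ≤ (X m).h0 ∧ ENNReal.ofReal lam ≤ (X m).h1) ∧
    ∀ m m', m ≠ m' → IsEmpty (PolyComplex.Iso (X m) (X m')) := by
  classical
  have key : ∀ m : ℕ, ∃ X : PolyComplex, X.Connected ∧ (∀ v, X.degree v ≤ 64) ∧
      Nat.card X.V = 2 * (m + 2) ∧
      ENNReal.ofReal (1 / (2 * (64 : ℕ) * (((64 : ℕ) : ℝ) + 1) ^ 2 * (6657 : ℕ))) ≤ X.h0 ∧
      ENNReal.ofReal (1 / (((64 : ℕ) : ℝ) + 1) ^ 2) ≤ X.h1 := by
    intro m
    obtain ⟨G, hG, h1, h2, h3, h4, h5⟩ := exists_graph (m + 2) (by omega)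
    obtain ⟨X, x1, x2, x3, x4, x5⟩ :=
      exists_complex G h1 h2 h3 64 (by norm_num) h4 6657 (by norm_num) h5
    refine ⟨X, x1, x2, ?_, x4, x5⟩
    rw [x3]
    simp [mul_comm]
  choose X hX using key
  refine ⟨64, 1 / (2 * (64 : ℕ) * (((64 : ℕ) : ℝ) + 1) ^ 2 * (6657 : ℕ)), X, by positivity,
    fun m => ⟨(hX m).1, (hX m).2.1, (hX m).2.2.2.1, ?_⟩, ?_⟩
  · refine le_trans (ENNReal.ofReal_le_ofReal ?_) (hX m).2.2.2.2
    apply one_div_le_one_div_of_le (by positivity)
    norm_num
  · intro m m' hne
    refine ⟨fun e => hne ?_⟩
    have h1 := Nat.card_congr e.onV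
    rw [(hX m).2.2.1, (hX m').2.2.1] at h1
    omega

end Pool.Agent.Results.MP_d4a15d_co.BoundedDegree
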